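import Pool.Agent.R887.TrvZ
import Pool.Agent.R887.Bez

/-!
Divisors on varieties which receive finite multi-valued maps.
-/

set_option autoImplicit false

open FF Pool.Agent.W602.GT Pool.Agent.Y172 Pool.Agent.R887

/-- (1) Let `X'` be a normal complex projective variety of dimension `n ≥ 1`, with generic point
`y'`, and `D'` an `ℝ`-divisor on `X'`. There is a constant `C ≥ 0` (any `C` such that `C H' - D'` is
pseudo-effective) such that the following holds for all normal projective varieties `X` of dimension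
`n` and degree at most `d`, with generic point `y` (the map which is given by `n - 1` pencils and one
pencil of hyperplane sections has at most `d` points in a fibre), and all divisors `D` on `X`. Let
`X' ← X'' → X` be a multi-valued map, where the projection `p` to `X'` is generically finite and
`f : X'' ⇢ X` is dominant (for instance, two finite morphisms), such that the prime divisors over
`X''` which `f` maps to prime divisors of `X` are mapped to prime divisors of `X'` by `p`, and along
them `f^* D` is at most `p^* D'` up to `ℚ`-linear equivalence. Let the intersection number of `n - 1`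
pull backs by `f` of hyperplane sections of `X` and one pull back by `p` of a hyperplane section of
`X'` be at most `c deg f`. Then
- `c C H - D` is pseudo-effective, `H` a hyperplane section of `X`;
- the coefficients of every effective `ℝ`-divisor `E` with `D - E` pseudo-effective are at most
  `d c C`;
- for all `m ≥ 1` with `m c C d < 1` the nonzero sections of `m D` have no zeros: if `m D` is linearly
  equivalent to an effective divisor, it is linearly trivial.

(2) Let `X` be a normal projective variety of dimension `n ≥ 1` and `D` a divisor on `X`. Suppose that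
for all `ε > 0` there are `X'`, `D'`, `τ ≥ 0` with `τ H' - D'` pseudo-effective and a multi-valued map
as in (1), with `c τ ≤ ε`. Then `-D` is pseudo-effective; if `D` is pseudo-effective, for instance
nef, it is numerically trivial; and, for all `m ≥ 1`, the nonzero sections of `m D` have no zeros.

Thus, if `H^1(X, O_X) = 0` and `D` is a nef divisor as in (2), then `D` is a torsion divisor, in
particular semiample. -/
theorem Pool.Agent.Results.MP_5ee2d0_ag.DivisorsFromSources.result :
    (∀ {K' : Type} [Field K'] [Algebra ℂ K'] {N' n : ℕ} {y' : Fin (N' + 1) → K'},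
      NormalModel y' → Algebra.trdeg ℂ K' = n → 0 < n → ∀ {D' : Place ℂ K' → ℝ},
      {P | IsPrimeDivisor y' P ∧ D' P ≠ 0}.Finite →
      ∃ C : ℝ, 0 ≤ C ∧ ∀ (K : Type) [Field K] [Algebra ℂ K] (N : ℕ) (y : Fin (N + 1) → K)
        (d : ℕ), NormalModel y → Algebra.trdeg ℂ K = n →
        (∀ u : Fin (n - 1) → K, (∀ a, IsPencil y (u a)) → ∀ v, IsPencil y v →
          degreeOver u (fun _ : Fin 1 => v) ≤ d) →
        ∀ (L : Type) [Field L] [Algebra ℂ L] (φ : K →ₐ[ℂ] L) (ψ : K' →ₐ[ℂ] L),
        FiniteDimensional ψ.fieldRange L → ∀ (D : Place ℂ K → ℤ) (s : ℕ) (δ : L),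
        FinitePullBackLe φ ψ y (fun P => (D P : ℝ)) y' D' s δ →
        ∀ c : ℝ, MultiDegreeLe φ ψ y y' (n - 1) 1 c →
          DivThresholdLe y (fun P => (D P : ℝ)) (c * C) ∧
          (∀ E : Place ℂ K → ℝ, (∀ P, IsPrimeDivisor y P → 0 ≤ E P) →
            DivPsef y (fun P => D P - E P) → ∀ P, IsPrimeDivisor y P → E P ≤ d * (c * C)) ∧
          ∀ m : ℕ, 1 ≤ m → m * (c * C) * d < 1 → ∀ g : K, g ≠ 0 →
            (∀ P, IsPrimeDivisor y P → -(m * D P) ≤ P.ord g) →
            ∀ P, IsPrimeDivisor y P → P.ord g = -(m * D P)) ∧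
    ∀ {K : Type} [Field K] [Algebra ℂ K] {N n : ℕ} {y : Fin (N + 1) → K}, NormalModel y →
      Algebra.trdeg ℂ K = n → 0 < n → ∀ {D : Place ℂ K → ℤ},
      (∀ ε : ℝ, 0 < ε → ∃ (K' L : Type) (_ : Field K') (_ : Algebra ℂ K') (_ : Field L)
        (_ : Algebra ℂ L) (N' : ℕ) (y' : Fin (N' + 1) → K') (D' : Place ℂ K' → ℝ)
        (φ : K →ₐ[ℂ] L) (ψ : K' →ₐ[ℂ] L) (s : ℕ) (δ : L) (c τ : ℝ), NormalModel y' ∧
        Algebra.trdeg ℂ K' = n ∧ 0 ≤ τ ∧ DivThresholdLe y' D' τ ∧
        FiniteDimensional ψ.fieldRange L ∧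
        FinitePullBackLe φ ψ y (fun P => (D P : ℝ)) y' D' s δ ∧
        MultiDegreeLe φ ψ y y' (n - 1) 1 c ∧ c * τ ≤ ε) →
      DivPsef y (fun P => -(D P : ℝ)) ∧
      (DivPsef y (fun P => (D P : ℝ)) → DivNumTrivial y (fun P => (D P : ℝ))) ∧
      ∀ m : ℕ, 1 ≤ m → ∀ g : K, g ≠ 0 → (∀ P, IsPrimeDivisor y P → -(m * D P) ≤ P.ord g) →
        ∀ P, IsPrimeDivisor y P → P.ord g = -(m * D P) := by
  refine ⟨fun {K'} _ _ {N' n y'} hy' hn' hn0 {D'} hD' => ?_,
    fun {K} _ _ {N n y} hy hn hn0 {D} h => ?_⟩
  · obtain ⟨C, hC0, hC⟩ := exists_divThreshold hy' hD'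
    refine ⟨C, hC0, fun K _ _ N y d hy hn hd L _ _ φ ψ hψ D s δ hpull c hc => ?_⟩
    obtain ⟨hc0, h1⟩ := divThreshold_le hy hn hn0 hy' hn' φ ψ hψ hpull hc hC0 hC
    exact ⟨h1, fun E hE hps P hP => div_coeff_le hy hn hn0 hd hE hps h1 hP,
      fun m hm hsmall g hg0 hg P hP => section_no_zero hy hn hn0 hd h1 hm hsmall hg0 hg hP⟩
  · have h1 : DivThresholdLe y (fun P => (D P : ℝ)) 0 := by
      refine divThresholdLe_of_forall fun ε hε => ?_
      obtain ⟨K', L, _, _, _, _, N', y', D', φ, ψ, s, δ, c, τ, hy', hn', hτ0, hτ, hψ, hpull, hc,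
        hcτ⟩ := h ε hε
      refine (divThreshold_le hy hn hn0 hy' hn' φ ψ hψ hpull hc hτ0 hτ).2.mono ?_
      linarith
    have h2 : DivPsef y (fun P => -(D P : ℝ)) := by
      unfold DivPsef
      simp only [neg_neg]
      exact h1
    refine ⟨h2, fun h3 => ⟨h3, h2⟩, fun m hm g hg0 hg P hP => ?_⟩
    obtain ⟨d, hd⟩ := bezout hy hn
    refine section_no_zero hy hn hn0 (d := d) (fun u hu v hv => ?_) h1 hm (by simp) hg0 hg hP
    rw [degreeOver_eq]
    refine hd (by
      rw [Nat.card_eq_fintype_card, Fintype.card_sum, Fintype.card_fin, Fintype.card_fin]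
      omega) _ fun k => ?_
    rcases k with k | k
    · exact hu k
    · exact hv
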