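import Pool.Agent.R893.TQ.Semi

set_option autoImplicit false

/-!
# Nef line bundles on quotients of complex tori with `H^1(O) = 0` are semiample

Let `X = V / Γ` be the quotient of a complex torus of any dimension by any finite group. If the
group acts freely and `X` is projective, then `X` is a projective manifold whose canonical bundle is
torsion, and it is trivial if the linear parts of `Γ` have determinant `1`. The theorem says that all
nef line bundles on `X` are semiample if and only if `H^1(X, O_X) = 0`; for it the action need not be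
free and `X` need not be projective.

Everything is written on the universal cover `V`. `IsTorusQuotient`, `LineBundle`,
`LineBundle.pow` and `LineBundle.IsSection` are defined in `Pool.Agent.W594.SYZ.Defs2`;
`IsChernForm`, `IsNefForm` and `Induces` in `Pool.Agent.W594.SYZ.TQDefs`; `HOneZero` and
`IsFibration` in `Pool.Agent.TH735.AQ.Defs`; `IsPseudoEffective` in
`Pool.Agent.TH128.SYZ.PsefDefs`; `BaseFree` in `Pool.Agent.R893.TQ.Semi`.

The proof: products of theta functions generate some line bundle `L'` whose Chern form is a multiple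
`m H` of that of `L`. The line bundle `L ^ m ⊗ L' ^ (-1)` has Chern form zero, and it is torsion: its
values on the lattice form a character which is invariant under the finite group, and the sum of the
translates of a lattice vector under this group is zero as `H^1(X, O_X) = 0`. If `H^1(X, O_X) ≠ 0`,
an invariant conjugate linear functional gives a flat line bundle which is not torsion.
-/

namespace Pool.Agent.Results.MP_5ee2d0_ag.TorusQuotients

open Pool.Agent.W594.SYZ2 Pool.Agent.TH735.AQ Pool.Agent.TH128.SYZ Pool.Agent.R893.TQ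

/-- Let `X = V / Γ` be a quotient of a complex torus by a finite group. If `H^1(X, O_X) = 0` then for
every line bundle `L` on `X` with Chern form `H` the following are equivalent: `L` is nef; `L` is
pseudo-effective; some power `L ^ m`, `m ≥ 1`, has a nonzero section; the linear system `|L ^ m|` is
base point free for some `m ≥ 1`; and in this case some power of `L` is the pullback of an ample
line bundle under a fibration of `X` over a torus quotient, given by a linear map whose kernel is the
kernel of `H`. If `H^1(X, O_X) ≠ 0` then there is a line bundle `L` on `X` with Chern form zero, so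
that `L` is nef, such that no power `L ^ m`, `m ≥ 1`, has a nonzero section. -/
theorem result {V : Type*} [NormedAddCommGroup V] [NormedSpace ℂ V] [FiniteDimensional ℂ V]
    (Γ : Subgroup (V ≃ᵃ[ℂ] V)) (hΓ : IsTorusQuotient Γ) :
    (HOneZero Γ → ∀ (L : LineBundle Γ) (H : V → V → ℂ), IsChernForm L H →
      (IsNefForm H ↔ IsPseudoEffective L) ∧
      (IsNefForm H ↔ ∃ m : ℕ, 1 ≤ m ∧ ∃ s, (L.pow m).IsSection s ∧ s ≠ 0) ∧
      (IsNefForm H ↔ ∃ m : ℕ, 1 ≤ m ∧ BaseFree (L.pow m)) ∧
      (IsNefForm H → ∃ (n : ℕ) (Δ : Subgroup ((Fin n → ℂ) ≃ᵃ[ℂ] (Fin n → ℂ)))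
        (π : V →ₗ[ℂ] (Fin n → ℂ)), (∀ v, π v = 0 ↔ ∀ w, H v w = 0) ∧
          IsFibration Γ Δ π ∧ Induces L Δ π)) ∧
    (¬ HOneZero Γ → ∃ L : LineBundle Γ, IsChernForm L (fun _ _ => 0) ∧
      ∀ m : ℕ, 1 ≤ m → ∀ s, (L.pow m).IsSection s → s = 0) := by
  refine ⟨fun h01 L H hc => ⟨(psef_iff_nef hΓ hc).symm, ⟨fun hn => ?_, ?_⟩, ⟨fun hn => ?_, ?_⟩,
    fun hn => semiample hΓ h01 hc hn⟩, fun h01 => exists_bad hΓ h01⟩
  · obtain ⟨m, hm, hb⟩ := exists_power hΓ h01 hc hn
    obtain ⟨s, hs, h0⟩ := hb 0
    exact ⟨m, hm, s, hs, fun h => h0 (by rw [h]; rfl)⟩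
  · rintro ⟨m, hm, s, hs, h0⟩
    exact nef_of_section hΓ hc hm hs h0
  · exact exists_power hΓ h01 hc hn
  · rintro ⟨m, hm, hb⟩
    obtain ⟨s, hs, h0⟩ := hb 0
    exact nef_of_section hΓ hc hm hs (fun h => h0 (by rw [h]; rfl))

end Pool.Agent.Results.MP_5ee2d0_ag.TorusQuotients
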