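import Pool.Agent.R800.UA.Fibr

/-!
# The fibration of a nef line bundle on a torus quotient: a uniform exponent

`IsTorusQuotient` and `LineBundle` are defined in `Pool.Agent.W594.SYZ.Defs2`; `IsChernForm` and
`IsNefForm` in `Pool.Agent.W594.SYZ.TQDefs`; `HOneZero` and `IsFibration` in
`Pool.Agent.TH735.AQ.Defs`; `gl3 n` (the order of the general linear group of rank `2 n` over the field
with three elements) in `Pool.Agent.R800.UA.Rep`; `PullsBack` in `Pool.Agent.R800.UA.FibDefs`.
-/

set_option autoImplicit false

namespace Pool.Agent.Results.MP_5ee2d0_ag.UniformFibration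

open Pool.Agent.W594.SYZ2 Pool.Agent.TH735.AQ Pool.Agent.R800.UA

/-- For every `n` there is an explicit `m ≥ 1` such that for every quotient `X = V / Γ` of a complex
torus of dimension `n` by a finite group with `H^1(X, O_X) = 0` (for example every projective manifold
with trivial canonical bundle and `H^1(X, O_X) = 0` which is an étale quotient of an abelian variety) and
every nef line bundle `L` on `X` with Chern form `H` there is a fibration `f : X → B` onto a torus
quotient, given by a linear map with kernel `ker H`, such that `L ^ m` is the pullback of an ample line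
bundle on `B` which is generated by its global sections. -/
theorem result : ∀ n : ℕ, 1 ≤ 4 * gl3 n ^ 7 ∧
    ∀ (V : Type*) [NormedAddCommGroup V] [NormedSpace ℂ V] [FiniteDimensional ℂ V]
      (Γ : Subgroup (V ≃ᵃ[ℂ] V)), Module.finrank ℂ V = n → IsTorusQuotient Γ → HOneZero Γ →
      ∀ (L : LineBundle Γ) (H : V → V → ℂ), IsChernForm L H → IsNefForm H →
        ∃ (k : ℕ) (Δ : Subgroup ((Fin k → ℂ) ≃ᵃ[ℂ] (Fin k → ℂ))) (π : V →ₗ[ℂ] (Fin k → ℂ)),
          (∀ v, π v = 0 ↔ ∀ w, H v w = 0) ∧ IsFibration Γ Δ π ∧
            PullsBack L Δ π (4 * gl3 n ^ 7) := by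
  intro n
  refine ⟨?_, fun V _ _ _ Γ hd hΓ h01 L H hc hn => fibration_uni hΓ h01 hd hc hn⟩
  have := gl3_pos n
  have h1 : 0 < 4 * gl3 n ^ 7 := by positivity
  exact h1

end Pool.Agent.Results.MP_5ee2d0_ag.UniformFibration
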